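import Mathlib

/-!
# Increments of the trace of the square root
-/

set_option autoImplicit false

namespace Pool.Agent.W99.TI

open Matrix
open scoped MatrixOrder ComplexOrder

variable {m : Type*} [Fintype m] [DecidableEq m]

omit [DecidableEq m] in
lemma re_trace_nonneg {A : Matrix m m ℂ} (hA : A.PosSemidef) : 0 ≤ A.trace.re :=
  (Complex.le_def.mp hA.trace_nonneg).1

lemma re_trace_mul_nonneg {A B : Matrix m m ℂ} (hA : A.PosSemidef) (hB : B.PosSemidef) :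
    0 ≤ (A * B).trace.re := by
  obtain ⟨C, rfl⟩ := CStarAlgebra.nonneg_iff_eq_star_mul_self.mp hB.nonneg
  have h := hA.mul_mul_conjTranspose_same C
  have h2 := re_trace_nonneg h
  rw [star_eq_conjTranspose, ← Matrix.mul_assoc, Matrix.trace_mul_comm, ← Matrix.mul_assoc]
  exact h2

/-- The tangent bound at `T`. -/
lemma incr_a {T S : Matrix m m ℂ} (hT : T.PosDef) (hS : S.IsHermitian) :
    (T⁻¹ * (T * T - S * S)).trace.re ≤ 2 * (T.trace.re - S.trace.re) := by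
  have hTu : IsUnit T.det := (Matrix.isUnit_iff_isUnit_det T).mp hT.isUnit
  have h1 : ((T - S)ᴴ * T⁻¹ * (T - S)).PosSemidef :=
    hT.inv.posSemidef.conjTranspose_mul_mul_same (T - S)
  have h2 := re_trace_nonneg h1
  have h3 : (T - S)ᴴ = T - S := by rw [conjTranspose_sub, hT.isHermitian.eq, hS.eq]
  have h4 : (T - S)ᴴ * T⁻¹ * (T - S) = T - S - S + S * T⁻¹ * S := by
    rw [h3, Matrix.sub_mul, Matrix.mul_nonsing_inv _ hTu, Matrix.sub_mul, Matrix.mul_sub,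
      Matrix.one_mul, Matrix.mul_sub, Matrix.mul_assoc S T⁻¹ T, Matrix.nonsing_inv_mul _ hTu,
      Matrix.mul_one, Matrix.one_mul]
    abel
  have h5 : T⁻¹ * (T * T - S * S) = T - T⁻¹ * S * S := by
    rw [Matrix.mul_sub, ← Matrix.mul_assoc, Matrix.nonsing_inv_mul _ hTu, Matrix.one_mul,
      Matrix.mul_assoc T⁻¹]
  have h6 : (T⁻¹ * S * S).trace = (S * T⁻¹ * S).trace := by
    rw [Matrix.trace_mul_comm, ← Matrix.mul_assoc]
  rw [h4] at h2
  rw [h5, Matrix.trace_sub, h6]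
  rw [Matrix.trace_add, Matrix.trace_sub, Matrix.trace_sub] at h2
  simp only [Complex.add_re, Complex.sub_re] at h2 ⊢
  linarith

lemma inv_tangent {T : Matrix m m ℂ} (hT : T.PosDef) {t : ℝ} (ht : 0 < t) :
    (T⁻¹ - ((3 / 2 * t⁻¹ : ℝ) : ℂ) • (1 : Matrix m m ℂ)
      + ((1 / 2 * (t ^ 3)⁻¹ : ℝ) : ℂ) • (T * T)).PosSemidef := by
  have hTu : IsUnit T.det := (Matrix.isUnit_iff_isUnit_det T).mp hT.isUnit
  set D : Matrix m m ℂ := T - (t : ℂ) • (1 : Matrix m m ℂ) with hD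
  have hDH : Dᴴ = D := by
    rw [hD, conjTranspose_sub, hT.isHermitian.eq, conjTranspose_smul, conjTranspose_one]
    simp
  have h1 : ((1 : Matrix m m ℂ) + ((2 * t : ℝ) : ℂ) • T⁻¹).PosSemidef := by
    refine PosSemidef.add PosSemidef.one ?_
    exact hT.inv.posSemidef.smul (by exact_mod_cast (by positivity : (0 : ℝ) ≤ 2 * t))
  have h2 := (h1.conjTranspose_mul_mul_same D).smul
    (show (0 : ℂ) ≤ ((1 / 2 * (t ^ 3)⁻¹ : ℝ) : ℂ) by
      exact_mod_cast (by positivity : (0 : ℝ) ≤ 1 / 2 * (t ^ 3)⁻¹))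
  convert h2 using 1
  rw [hDH, hD]
  have e1 : (T - (t : ℂ) • (1 : Matrix m m ℂ)) * (1 + ((2 * t : ℝ) : ℂ) • T⁻¹)
      * (T - (t : ℂ) • (1 : Matrix m m ℂ))
      = T * T - ((3 * t ^ 2 : ℝ) : ℂ) • (1 : Matrix m m ℂ) + ((2 * t ^ 3 : ℝ) : ℂ) • T⁻¹ := by
    simp only [Matrix.sub_mul, Matrix.mul_add, Matrix.mul_sub, Matrix.mul_one,
      Matrix.smul_mul, Matrix.mul_smul, Matrix.one_mul, Matrix.add_mul,
      Matrix.mul_nonsing_inv _ hTu, Matrix.nonsing_inv_mul _ hTu]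
    push_cast
    module
  rw [e1]
  have ht' : (t : ℂ) ≠ 0 := by exact_mod_cast ht.ne'
  rw [smul_add, smul_sub, smul_smul, smul_smul]
  have e2 : ((1 / 2 * (t ^ 3)⁻¹ : ℝ) : ℂ) * ((3 * t ^ 2 : ℝ) : ℂ) = ((3 / 2 * t⁻¹ : ℝ) : ℂ) := by
    push_cast; field_simp
  have e3 : ((1 / 2 * (t ^ 3)⁻¹ : ℝ) : ℂ) * ((2 * t ^ 3 : ℝ) : ℂ) = 1 := by
    push_cast; field_simp
  rw [e2, e3, one_smul]
  abel

/-- The main increment estimate. -/
lemma incr {T S D : Matrix m m ℂ} (hT : T.PosDef) (hS : S.IsHermitian)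
    (hD : T * T - S * S = D) (hDp : D.PosSemidef) {t : ℝ} (ht : 0 < t) :
    3 / 2 * t⁻¹ * D.trace.re - 1 / 2 * (t ^ 3)⁻¹ * (T * T * D).trace.re
      ≤ 2 * (T.trace.re - S.trace.re) := by
  refine le_trans ?_ (incr_a hT hS)
  rw [hD]
  have h := re_trace_mul_nonneg (inv_tangent hT ht) hDp
  rw [Matrix.add_mul, Matrix.sub_mul, Matrix.smul_mul, Matrix.smul_mul, Matrix.one_mul,
    Matrix.trace_add, Matrix.trace_sub, Matrix.trace_smul, Matrix.trace_smul] at h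
  simp only [Complex.add_re, Complex.sub_re, smul_eq_mul, Complex.re_ofReal_mul] at h
  linarith

end Pool.Agent.W99.TI
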