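import Mathlib

/-!
# Scalar lemmas: subdivision and the function `Phi`
-/

set_option autoImplicit false

namespace Pool.Agent.W99.TI

open Finset

lemma sub_step (G : ℝ → ℝ) (A D s t : ℝ) (hst : s ≤ t) (hA : 0 ≤ A)
    (h : ∀ u v, s ≤ u → u < v → v ≤ t → G u - A * (v - u) ^ 2 - D * (v - u) ≤ G v) :
    G s - D * (t - s) ≤ G t := by
  rcases hst.eq_or_lt with rfl | hlt
  · simp
  refine le_of_forall_pos_le_add fun ε hε => ?_
  obtain ⟨N, hN⟩ := exists_nat_gt (A * (t - s) ^ 2 / ε)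
  have hNpos : (0 : ℝ) < N := lt_of_le_of_lt (by positivity) hN
  set e : ℝ := (t - s) / N with he
  have hepos : 0 < e := div_pos (by linarith) hNpos
  have hNe : N * e = t - s := by rw [he]; field_simp
  have key : ∀ k : ℕ, k ≤ N → G s - k * (A * e ^ 2 + D * e) ≤ G (s + k * e) := by
    intro k
    induction k with
    | zero => intro _; simp
    | succ k ih =>
      intro hk
      have h1 := ih (by omega)
      have hk' : ((k : ℝ) + 1) ≤ N := by exact_mod_cast hk
      have h2 := h (s + k * e) (s + (k + 1 : ℕ) * e) (by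
          have : 0 ≤ (k : ℝ) * e := by positivity
          linarith) (by push_cast; nlinarith) (by
          push_cast
          have : ((k : ℝ) + 1) * e ≤ N * e := by gcongr
          linarith)
      have h3 : s + ((k + 1 : ℕ) : ℝ) * e - (s + k * e) = e := by push_cast; ring
      rw [h3] at h2
      push_cast at h2 ⊢
      linarith
  have h1 := key N le_rfl
  rw [hNe] at h1
  have h2 : (N : ℝ) * (A * e ^ 2 + D * e) = A * (t - s) ^ 2 / N + D * (t - s) := by
    have : (N : ℝ) * (A * e ^ 2 + D * e) = A * (N * e) * e + D * (N * e) := by ring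
    rw [this, hNe, he]; ring
  have h3 : A * (t - s) ^ 2 / N < ε := by
    rw [div_lt_iff₀ hNpos]
    rw [div_lt_iff₀ hε] at hN
    linarith
  have h4 : s + (t - s) = t := by ring
  rw [h4, h2] at h1
  linarith

lemma mono_break (B : Finset ℝ) (G : ℝ → ℝ) (A D lo hi : ℝ) (hA : 0 ≤ A)
    (h : ∀ s t, lo ≤ s → s < t → t ≤ hi → (∀ b ∈ B, b ≤ s ∨ t ≤ b) →
      G s - A * (t - s) ^ 2 - D * (t - s) ≤ G t) :
    ∀ s t, lo ≤ s → s ≤ t → t ≤ hi → G s - D * (t - s) ≤ G t := by
  suffices H : ∀ n : ℕ, ∀ s t, (B.filter fun b => s < b ∧ b < t).card ≤ n → lo ≤ s → s ≤ t →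
      t ≤ hi → G s - D * (t - s) ≤ G t by
    intro s t; exact H _ s t le_rfl
  intro n
  induction n with
  | zero =>
    intro s t hcard hs hst ht
    have hempty : B.filter (fun b => s < b ∧ b < t) = ∅ := by
      rwa [Nat.le_zero, Finset.card_eq_zero] at hcard
    refine sub_step G A D s t hst hA fun u v hu huv hv => ?_
    refine h u v (hs.trans hu) huv (hv.trans ht) fun b hb => ?_
    by_contra hcon
    push Not at hcon
    have : b ∈ B.filter (fun b => s < b ∧ b < t) := by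
      rw [Finset.mem_filter]
      exact ⟨hb, by linarith, by linarith⟩
    rw [hempty] at this
    simp at this
  | succ n ih =>
    intro s t hcard hs hst ht
    by_cases hne : (B.filter fun b => s < b ∧ b < t).Nonempty
    · obtain ⟨b, hb⟩ := hne
      have hb' := hb
      rw [Finset.mem_filter] at hb'
      obtain ⟨hbB, hsb, hbt⟩ := hb'
      have c1 : (B.filter fun x => s < x ∧ x < b).card ≤ n := by
        have : (B.filter fun x => s < x ∧ x < b) ⊂ (B.filter fun x => s < x ∧ x < t) := by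
          rw [Finset.ssubset_iff_of_subset]
          · exact ⟨b, hb, by simp⟩
          · intro x hx
            rw [Finset.mem_filter] at hx ⊢
            exact ⟨hx.1, hx.2.1, by linarith [hx.2.2]⟩
        have := Finset.card_lt_card this
        omega
      have c2 : (B.filter fun x => b < x ∧ x < t).card ≤ n := by
        have : (B.filter fun x => b < x ∧ x < t) ⊂ (B.filter fun x => s < x ∧ x < t) := by
          rw [Finset.ssubset_iff_of_subset]
          · exact ⟨b, hb, by simp⟩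
          · intro x hx
            rw [Finset.mem_filter] at hx ⊢
            exact ⟨hx.1, by linarith [hx.2.1], hx.2.2⟩
        have := Finset.card_lt_card this
        omega
      have i1 := ih s b c1 hs hsb.le (by linarith)
      have i2 := ih b t c2 (by linarith) hbt.le ht
      linarith
    · rw [Finset.not_nonempty_iff_eq_empty] at hne
      exact ih s t (by rw [hne]; simp) hs hst ht

/-- The cost of a pair: `(3 a - a² / b) / 2` with `a = min x y`, `b = max x y`. -/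
noncomputable def kap (x y : ℝ) : ℝ := (3 * min x y - (min x y) ^ 2 / max x y) / 2

lemma kap_comm (x y : ℝ) : kap x y = kap y x := by
  unfold kap; rw [min_comm, max_comm]

lemma kap_nonneg {x y : ℝ} (hx : 0 ≤ x) (hy : 0 ≤ y) : 0 ≤ kap x y := by
  unfold kap
  have h0 : 0 ≤ min x y := le_min hx hy
  have h1 : min x y ≤ max x y := min_le_max
  have h2 : (min x y) ^ 2 / max x y ≤ min x y := by
    rcases (le_max_of_le_left hx : (0:ℝ) ≤ max x y).eq_or_lt with h | h
    · rw [← h]; simpa using h0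
    · rw [div_le_iff₀ h]; nlinarith
  linarith

/-- `kap x y ≤ 2 x y / (x + y)`. -/
lemma kap_le {x y : ℝ} (hx : 0 ≤ x) (hy : 0 ≤ y) : kap x y ≤ 2 * (x * y / (x + y)) := by
  wlog hxy : x ≤ y with H
  · rw [kap_comm, mul_comm x y, add_comm x y]
    exact H hy hx (le_of_not_ge hxy)
  unfold kap
  rw [min_eq_left hxy, max_eq_right hxy]
  rcases hy.eq_or_lt with h | h
  · have : x = 0 := by linarith
    subst this; simp
  · have hs : 0 < x + y := by linarith
    rw [div_le_iff₀ (by norm_num : (0:ℝ) < 2)]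
    have e1 : 3 * x - x ^ 2 / y = (3 * x * y - x ^ 2) / y := by field_simp
    have e2 : 2 * (x * y / (x + y)) * 2 = (4 * x * y) / (x + y) := by ring
    rw [e1, e2, div_le_div_iff₀ h hs]
    nlinarith [mul_nonneg hx (sq_nonneg (x - y))]

variable {P : Type*} [Fintype P]

/-- The lower bound function along the path. -/
noncomputable def Phi (a : P → ℝ) (c : P → P → ℝ) (t : ℝ) : ℝ :=
  ∑ p, min (a p) t - 1 / 2 * ∑ p, ∑ q, kap (min (a p) t) (min (a q) t) * c p q

/-- The off-diagonal comparison. -/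
lemma pair_step {a b s t : ℝ} (ha0 : 0 ≤ a) (hb0 : 0 ≤ b) (hs : 0 < s) (hst : s < t)
    (ha : a ≤ s ∨ t ≤ a) (hb : b ≤ s ∨ t ≤ b) :
    1 / 4 * ((min a t) ^ 2 - (min a s) ^ 2) * (t ^ 3)⁻¹ * (min b t) ^ 2
      + 1 / 4 * ((min b t) ^ 2 - (min b s) ^ 2) * (t ^ 3)⁻¹ * (min a t) ^ 2
      ≤ kap (min a t) (min b t) - kap (min a s) (min b s) := by
  have ht : 0 < t := hs.trans hst
  have key : ∀ z : ℝ, 0 ≤ z → z ≤ s →
      1 / 4 * (t ^ 2 - s ^ 2) * (t ^ 3)⁻¹ * z ^ 2 ≤ (3 * z - z ^ 2 / t) / 2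
        - (3 * z - z ^ 2 / s) / 2 := by
    intro z hz hzs
    have e : (3 * z - z ^ 2 / t) / 2 - (3 * z - z ^ 2 / s) / 2
        - 1 / 4 * (t ^ 2 - s ^ 2) * (t ^ 3)⁻¹ * z ^ 2
        = z ^ 2 * (t - s) * (2 * t ^ 2 - s * (t + s)) / (4 * s * t ^ 3) := by
      field_simp; ring
    have : 0 ≤ z ^ 2 * (t - s) * (2 * t ^ 2 - s * (t + s)) / (4 * s * t ^ 3) := by
      apply div_nonneg _ (by positivity)
      apply mul_nonneg (mul_nonneg (sq_nonneg _) (by linarith))
      nlinarith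
    linarith
  rcases ha with ha | ha <;> rcases hb with hb | hb
  · rw [min_eq_left ha, min_eq_left hb, min_eq_left (ha.trans hst.le),
      min_eq_left (hb.trans hst.le)]
    simp
  · have h1 : s ≤ b := hst.le.trans hb
    rw [min_eq_left ha, min_eq_right h1, min_eq_left (ha.trans hst.le), min_eq_right hb]
    unfold kap
    rw [min_eq_left ha, max_eq_right ha, min_eq_left (ha.trans hst.le),
      max_eq_right (ha.trans hst.le)]
    have := key a ha0 ha
    simpa using this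
  · have h1 : s ≤ a := hst.le.trans ha
    rw [min_eq_left hb, min_eq_right h1, min_eq_left (hb.trans hst.le), min_eq_right ha]
    rw [kap_comm t b, kap_comm s b]
    unfold kap
    rw [min_eq_left hb, max_eq_right hb, min_eq_left (hb.trans hst.le),
      max_eq_right (hb.trans hst.le)]
    have := key b hb0 hb
    simpa using this
  · have h1 : s ≤ a := hst.le.trans ha
    have h2 : s ≤ b := hst.le.trans hb
    rw [min_eq_right h1, min_eq_right h2, min_eq_right ha, min_eq_right hb]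
    unfold kap
    rw [min_self, max_self, min_self, max_self]
    have e : (3 * t - t ^ 2 / t) / 2 - (3 * s - s ^ 2 / s) / 2
        - (1 / 4 * (t ^ 2 - s ^ 2) * (t ^ 3)⁻¹ * t ^ 2
          + 1 / 4 * (t ^ 2 - s ^ 2) * (t ^ 3)⁻¹ * t ^ 2) = (t - s) ^ 2 / (2 * t) := by
      field_simp; ring
    have : 0 ≤ (t - s) ^ 2 / (2 * t) := by positivity
    linarith

lemma diag_step {a s t d e : ℝ} (hd : 0 < d) (hds : d ≤ s) (hst : s < t)
    (ha : a ≤ s ∨ t ≤ a) :
    min a t - min a s - ((t - s) ^ 2 / (2 * d) + e ^ 2 * (t - s) / (2 * d ^ 2)) ≤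
      1 / 2 * ((min a t) ^ 2 - (min a s) ^ 2) * (3 / 2 * t⁻¹ - 1 / 2 * (t ^ 3)⁻¹ *
        ((min a t) ^ 2 + e ^ 2)) := by
  have hs : 0 < s := hd.trans_le hds
  have ht : 0 < t := hs.trans hst
  have hnn : 0 ≤ (t - s) ^ 2 / (2 * d) + e ^ 2 * (t - s) / (2 * d ^ 2) := by
    have : 0 ≤ t - s := by linarith
    positivity
  rcases ha with ha | ha
  · rw [min_eq_left ha, min_eq_left (ha.trans hst.le)]
    simp only [sub_self, zero_mul, mul_zero]
    linarith
  · rw [min_eq_right ha, min_eq_right (hst.le.trans ha)]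
    have e1 : 1 / 2 * (t ^ 2 - s ^ 2) * (3 / 2 * t⁻¹ - 1 / 2 * (t ^ 3)⁻¹ * (t ^ 2 + e ^ 2))
        = (t - s) - (t - s) ^ 2 / (2 * t) - (t - s) * (t + s) * e ^ 2 / (4 * t ^ 3) := by
      field_simp; ring
    rw [e1]
    have h1 : (t - s) ^ 2 / (2 * t) ≤ (t - s) ^ 2 / (2 * d) := by
      apply div_le_div_of_nonneg_left (sq_nonneg _) (by positivity) (by linarith)
    have h2 : (t - s) * (t + s) * e ^ 2 / (4 * t ^ 3) ≤ e ^ 2 * (t - s) / (2 * d ^ 2) := by
      have h3 : (t - s) * (t + s) * e ^ 2 / (4 * t ^ 3) ≤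
          (t - s) * (2 * t) * e ^ 2 / (4 * t ^ 3) := by
        have : 0 ≤ t - s := by linarith
        gcongr
        linarith
      have h4 : (t - s) * (2 * t) * e ^ 2 / (4 * t ^ 3) = e ^ 2 * (t - s) / (2 * t ^ 2) := by
        field_simp; ring
      rw [h4] at h3
      refine h3.trans ?_
      have : 0 ≤ t - s := by linarith
      apply div_le_div_of_nonneg_left (by positivity) (by positivity)
      have : d ≤ t := by linarith
      gcongr
    linarith

lemma scalar_step (a : P → ℝ) (ha : ∀ p, 0 ≤ a p) (c : P → P → ℝ) (hc : ∀ p q, 0 ≤ c p q)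
    (hsym : ∀ p q, c p q = c q p) {d s t e : ℝ} (hd : 0 < d) (hs : d ≤ s) (hst : s < t)
    (hb : ∀ p, a p ≤ s ∨ t ≤ a p) :
    Phi a c t - Phi a c s
        - Fintype.card P * ((t - s) ^ 2 / (2 * d) + e ^ 2 * (t - s) / (2 * d ^ 2)) ≤
      1 / 2 * ∑ p, ((min (a p) t) ^ 2 - (min (a p) s) ^ 2) * (3 / 2 * t⁻¹ - 1 / 2 * (t ^ 3)⁻¹ *
        ((min (a p) t) ^ 2 + ∑ q, (min (a q) t) ^ 2 * c q p + e ^ 2)) := by
  classical
  set E : ℝ := (t - s) ^ 2 / (2 * d) + e ^ 2 * (t - s) / (2 * d ^ 2) with hE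
  -- split the right-hand side
  have e1 : 1 / 2 * ∑ p, ((min (a p) t) ^ 2 - (min (a p) s) ^ 2) *
        (3 / 2 * t⁻¹ - 1 / 2 * (t ^ 3)⁻¹ *
        ((min (a p) t) ^ 2 + ∑ q, (min (a q) t) ^ 2 * c q p + e ^ 2))
      = ∑ p, 1 / 2 * ((min (a p) t) ^ 2 - (min (a p) s) ^ 2) * (3 / 2 * t⁻¹ - 1 / 2 * (t ^ 3)⁻¹ *
        ((min (a p) t) ^ 2 + e ^ 2))
        - ∑ p, ∑ q, 1 / 4 * ((min (a p) t) ^ 2 - (min (a p) s) ^ 2) * (t ^ 3)⁻¹ *
          (min (a q) t) ^ 2 * c p q := by
    rw [Finset.mul_sum, ← Finset.sum_sub_distrib]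
    refine Finset.sum_congr rfl fun p _ => ?_
    have : ∑ q, 1 / 4 * ((min (a p) t) ^ 2 - (min (a p) s) ^ 2) * (t ^ 3)⁻¹ *
          (min (a q) t) ^ 2 * c p q
        = 1 / 4 * ((min (a p) t) ^ 2 - (min (a p) s) ^ 2) * (t ^ 3)⁻¹ *
          ∑ q, (min (a q) t) ^ 2 * c q p := by
      rw [Finset.mul_sum]
      refine Finset.sum_congr rfl fun q _ => ?_
      rw [hsym p q]; ring
    rw [this]; ring
  have e2 : ∑ p, ∑ q, 1 / 4 * ((min (a p) t) ^ 2 - (min (a p) s) ^ 2) * (t ^ 3)⁻¹ *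
          (min (a q) t) ^ 2 * c p q
      = 1 / 2 * ∑ p, ∑ q, (1 / 4 * ((min (a p) t) ^ 2 - (min (a p) s) ^ 2) * (t ^ 3)⁻¹ *
          (min (a q) t) ^ 2 + 1 / 4 * ((min (a q) t) ^ 2 - (min (a q) s) ^ 2) * (t ^ 3)⁻¹ *
          (min (a p) t) ^ 2) * c p q := by
    have h1 : ∑ p, ∑ q, (1 / 4 * ((min (a p) t) ^ 2 - (min (a p) s) ^ 2) * (t ^ 3)⁻¹ *
          (min (a q) t) ^ 2 + 1 / 4 * ((min (a q) t) ^ 2 - (min (a q) s) ^ 2) * (t ^ 3)⁻¹ *
          (min (a p) t) ^ 2) * c p q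
        = ∑ p, ∑ q, 1 / 4 * ((min (a p) t) ^ 2 - (min (a p) s) ^ 2) * (t ^ 3)⁻¹ *
          (min (a q) t) ^ 2 * c p q
        + ∑ p, ∑ q, 1 / 4 * ((min (a q) t) ^ 2 - (min (a q) s) ^ 2) * (t ^ 3)⁻¹ *
          (min (a p) t) ^ 2 * c p q := by
      rw [← Finset.sum_add_distrib]
      refine Finset.sum_congr rfl fun p _ => ?_
      rw [← Finset.sum_add_distrib]
      refine Finset.sum_congr rfl fun q _ => ?_
      ring
    have h2 : ∑ p, ∑ q, 1 / 4 * ((min (a q) t) ^ 2 - (min (a q) s) ^ 2) * (t ^ 3)⁻¹ *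
          (min (a p) t) ^ 2 * c p q
        = ∑ p, ∑ q, 1 / 4 * ((min (a p) t) ^ 2 - (min (a p) s) ^ 2) * (t ^ 3)⁻¹ *
          (min (a q) t) ^ 2 * c p q := by
      rw [Finset.sum_comm]
      refine Finset.sum_congr rfl fun p _ => ?_
      refine Finset.sum_congr rfl fun q _ => ?_
      rw [hsym q p]
    rw [h1, h2]; ring
  have e3 : Phi a c t - Phi a c s - Fintype.card P * E
      = ∑ p, (min (a p) t - min (a p) s - E)
        - 1 / 2 * ∑ p, ∑ q, (kap (min (a p) t) (min (a q) t) - kap (min (a p) s) (min (a q) s))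
          * c p q := by
    unfold Phi
    simp only [Finset.sum_sub_distrib, sub_mul, Finset.sum_const, Finset.card_univ, nsmul_eq_mul]
    ring
  rw [e1, e2, e3]
  have i1 : ∑ p, (min (a p) t - min (a p) s - E) ≤
      ∑ p, 1 / 2 * ((min (a p) t) ^ 2 - (min (a p) s) ^ 2) * (3 / 2 * t⁻¹ - 1 / 2 * (t ^ 3)⁻¹ *
        ((min (a p) t) ^ 2 + e ^ 2)) :=
    Finset.sum_le_sum fun p _ => diag_step hd hs hst (hb p)
  have i2 : ∑ p, ∑ q, (1 / 4 * ((min (a p) t) ^ 2 - (min (a p) s) ^ 2) * (t ^ 3)⁻¹ *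
          (min (a q) t) ^ 2 + 1 / 4 * ((min (a q) t) ^ 2 - (min (a q) s) ^ 2) * (t ^ 3)⁻¹ *
          (min (a p) t) ^ 2) * c p q ≤
      ∑ p, ∑ q, (kap (min (a p) t) (min (a q) t) - kap (min (a p) s) (min (a q) s))
          * c p q :=
    Finset.sum_le_sum fun p _ => Finset.sum_le_sum fun q _ =>
      mul_le_mul_of_nonneg_right (pair_step (ha p) (ha q) (hd.trans_le hs) hst (hb p) (hb q))
        (hc p q)
  linarith

end Pool.Agent.W99.TI
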