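import Pool.Agent.W99.TI.Incr
import Pool.Agent.W99.TI.Scalar

/-!
# The lower bound for the trace of the square root of `∑ a_p² |v_p⟩⟨v_p|`
-/

set_option autoImplicit false
set_option linter.unusedSectionVars false

namespace Pool.Agent.W99.TI

open Matrix Finset
open scoped MatrixOrder ComplexOrder

variable {m : Type*} [Fintype m] [DecidableEq m] {P : Type*} [Fintype P] [DecidableEq P]

/-- the rank one projection -/
def pr (w : m → ℂ) : Matrix m m ℂ := vecMulVec w (star w)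

omit [DecidableEq m] in
lemma pr_posSemidef (w : m → ℂ) : (pr w).PosSemidef := posSemidef_vecMulVec_self_star w

omit [DecidableEq m] in
lemma pr_trace {w : m → ℂ} (hw : star w ⬝ᵥ w = 1) : (pr w).trace = 1 := by
  rw [pr, trace_vecMulVec, dotProduct_comm, hw]

omit [DecidableEq m] in
lemma pr_mul_trace (u w : m → ℂ) :
    (pr u * pr w).trace = ((Complex.normSq (star u ⬝ᵥ w) : ℝ) : ℂ) := by
  rw [pr, pr, vecMulVec_mul_vecMulVec, trace_vecMulVec, dotProduct_smul,
    Complex.normSq_eq_conj_mul_self]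
  have : u ⬝ᵥ star w = (starRingEnd ℂ) (star u ⬝ᵥ w) := by
    rw [starRingEnd_apply, ← Matrix.star_dotProduct_star, star_star, dotProduct_comm]
  rw [this, smul_eq_mul, mul_comm]

/-- overlap of distinct indices -/
noncomputable def ov (v : P → m → ℂ) (p q : P) : ℝ :=
  if p = q then 0 else Complex.normSq (star (v p) ⬝ᵥ v q)

lemma ov_nonneg (v : P → m → ℂ) (p q : P) : 0 ≤ ov v p q := by
  unfold ov; split_ifs
  · exact le_rfl
  · exact Complex.normSq_nonneg _

lemma ov_symm (v : P → m → ℂ) (p q : P) : ov v p q = ov v q p := by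
  unfold ov
  by_cases h : p = q
  · subst h; rfl
  · rw [if_neg h, if_neg (Ne.symm h)]
    have : star (v p) ⬝ᵥ v q = (starRingEnd ℂ) (star (v q) ⬝ᵥ v p) := by
      rw [starRingEnd_apply, ← Matrix.star_dotProduct_star, star_star]
    rw [this, Complex.normSq_conj]

/-- `X(t) = ∑ min(a_p, t)² |v_p⟩⟨v_p|` -/
noncomputable def XX (a : P → ℝ) (v : P → m → ℂ) (t : ℝ) : Matrix m m ℂ :=
  ∑ p, (((min (a p) t) ^ 2 : ℝ) : ℂ) • pr (v p)

lemma XX_posSemidef (a : P → ℝ) (v : P → m → ℂ) (t : ℝ) : (XX a v t).PosSemidef := by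
  unfold XX
  refine posSemidef_sum _ fun p _ => (pr_posSemidef _).smul ?_
  exact_mod_cast sq_nonneg (min (a p) t)

/-- `F_η(t) = Tr √(X(t) + η²)` -/
noncomputable def FF (a : P → ℝ) (v : P → m → ℂ) (e t : ℝ) : ℝ :=
  (CFC.sqrt (XX a v t + ((e ^ 2 : ℝ) : ℂ) • (1 : Matrix m m ℂ))).trace.re

lemma YY_posDef (a : P → ℝ) (v : P → m → ℂ) {e : ℝ} (he : 0 < e) (t : ℝ) :
    (XX a v t + ((e ^ 2 : ℝ) : ℂ) • (1 : Matrix m m ℂ)).PosDef := by
  refine PosDef.posSemidef_add (XX_posSemidef a v t) ?_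
  refine PosDef.one.smul ?_
  exact_mod_cast (by positivity : 0 < e ^ 2)

lemma sqrt_posDef {Y : Matrix m m ℂ} (hY : Y.PosDef) : (CFC.sqrt Y).PosDef := by
  have h1 : (CFC.sqrt Y).PosSemidef := (CFC.sqrt_nonneg Y).posSemidef
  rw [h1.posDef_iff_isUnit]
  have h2 : CFC.sqrt Y * CFC.sqrt Y = Y := CFC.sqrt_mul_sqrt_self Y hY.posSemidef.nonneg
  have h3 : IsUnit (CFC.sqrt Y * CFC.sqrt Y) := by rw [h2]; exact hY.isUnit
  exact isUnit_of_mul_isUnit_left h3

omit [DecidableEq m] in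
lemma trace_sum_smul (b : P → ℝ) (M : P → Matrix m m ℂ) :
    (∑ p, ((b p : ℝ) : ℂ) • M p).trace.re = ∑ p, b p * (M p).trace.re := by
  rw [trace_sum, Complex.re_sum]
  refine Finset.sum_congr rfl fun p _ => ?_
  rw [trace_smul, smul_eq_mul, Complex.re_ofReal_mul]

lemma path_step (a : P → ℝ) (ha : ∀ p, 0 ≤ a p) (v : P → m → ℂ)
    (hv : ∀ p, star (v p) ⬝ᵥ v p = 1) {e : ℝ} (he : 0 < e) {s t : ℝ} (hs : 0 < s)
    (hst : s < t) :
    1 / 2 * ∑ p, ((min (a p) t) ^ 2 - (min (a p) s) ^ 2) * (3 / 2 * t⁻¹ - 1 / 2 * (t ^ 3)⁻¹ *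
        ((min (a p) t) ^ 2 + ∑ q, (min (a q) t) ^ 2 * ov v q p + e ^ 2)) ≤
      FF a v e t - FF a v e s := by
  have ht : 0 < t := hs.trans hst
  set D : Matrix m m ℂ := ∑ p, (((min (a p) t) ^ 2 - (min (a p) s) ^ 2 : ℝ) : ℂ) • pr (v p)
    with hD
  have hDp : D.PosSemidef := by
    refine posSemidef_sum _ fun p _ => (pr_posSemidef _).smul ?_
    have h1 : min (a p) s ≤ min (a p) t := min_le_min_left _ hst.le
    have h2 : 0 ≤ min (a p) s := le_min (ha p) hs.le
    exact_mod_cast (by nlinarith : (0:ℝ) ≤ (min (a p) t) ^ 2 - (min (a p) s) ^ 2)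
  set Yt := XX a v t + ((e ^ 2 : ℝ) : ℂ) • (1 : Matrix m m ℂ) with hYt
  set Ys := XX a v s + ((e ^ 2 : ℝ) : ℂ) • (1 : Matrix m m ℂ) with hYs
  have hTT : CFC.sqrt Yt * CFC.sqrt Yt = Yt :=
    CFC.sqrt_mul_sqrt_self Yt (YY_posDef a v he t).posSemidef.nonneg
  have hSS : CFC.sqrt Ys * CFC.sqrt Ys = Ys :=
    CFC.sqrt_mul_sqrt_self Ys (YY_posDef a v he s).posSemidef.nonneg
  have hdiff : CFC.sqrt Yt * CFC.sqrt Yt - CFC.sqrt Ys * CFC.sqrt Ys = D := by
    rw [hTT, hSS, hYt, hYs, add_sub_add_right_eq_sub, XX, XX, ← Finset.sum_sub_distrib, hD]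
    refine Finset.sum_congr rfl fun p _ => ?_
    rw [← sub_smul]; push_cast; rfl
  have h := incr (sqrt_posDef (YY_posDef a v he t))
    (CFC.sqrt_nonneg Ys).posSemidef.isHermitian hdiff hDp ht
  rw [hTT] at h
  have e1 : D.trace.re = ∑ p, ((min (a p) t) ^ 2 - (min (a p) s) ^ 2) := by
    rw [hD, trace_sum_smul]
    refine Finset.sum_congr rfl fun p _ => ?_
    rw [pr_trace (hv p)]; simp
  have e2 : (Yt * D).trace.re = ∑ p, ((min (a p) t) ^ 2 - (min (a p) s) ^ 2) *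
      ((min (a p) t) ^ 2 + ∑ q, (min (a q) t) ^ 2 * ov v q p + e ^ 2) := by
    have h1 : Yt * D = ∑ p, (((min (a p) t) ^ 2 - (min (a p) s) ^ 2 : ℝ) : ℂ) •
        (Yt * pr (v p)) := by
      rw [hD, Finset.mul_sum]
      refine Finset.sum_congr rfl fun p _ => ?_
      rw [Matrix.mul_smul]
    rw [h1, trace_sum_smul]
    refine Finset.sum_congr rfl fun p _ => ?_
    congr 1
    rw [hYt, Matrix.add_mul, XX, Finset.sum_mul, trace_add, Matrix.smul_mul, Matrix.one_mul,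
      trace_smul, pr_trace (hv p), Complex.add_re]
    congr 1
    · have h2 : ∑ q, (((min (a q) t) ^ 2 : ℝ) : ℂ) • pr (v q) * pr (v p)
          = ∑ q, (((min (a q) t) ^ 2 : ℝ) : ℂ) • (pr (v q) * pr (v p)) := by
        refine Finset.sum_congr rfl fun q _ => ?_
        rw [Matrix.smul_mul]
      rw [h2, trace_sum_smul]
      have h3 : ∀ q, (pr (v q) * pr (v p)).trace.re = (if q = p then 1 else 0) + ov v q p := by
        intro q
        rw [pr_mul_trace, Complex.ofReal_re]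
        unfold ov
        by_cases hqp : q = p
        · subst hqp; simp [hv q]
        · simp [hqp]
      simp only [h3, mul_add, Finset.sum_add_distrib]
      simp
    · simp only [smul_eq_mul, mul_one, Complex.ofReal_re]
  rw [e1, e2] at h
  have e3 : ∑ p, ((min (a p) t) ^ 2 - (min (a p) s) ^ 2) * (3 / 2 * t⁻¹ - 1 / 2 * (t ^ 3)⁻¹ *
        ((min (a p) t) ^ 2 + ∑ q, (min (a q) t) ^ 2 * ov v q p + e ^ 2))
      = 3 / 2 * t⁻¹ * ∑ p, ((min (a p) t) ^ 2 - (min (a p) s) ^ 2)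
        - 1 / 2 * (t ^ 3)⁻¹ * ∑ p, ((min (a p) t) ^ 2 - (min (a p) s) ^ 2) *
      ((min (a p) t) ^ 2 + ∑ q, (min (a q) t) ^ 2 * ov v q p + e ^ 2) := by
    rw [Finset.mul_sum, Finset.mul_sum, ← Finset.sum_sub_distrib]
    refine Finset.sum_congr rfl fun p _ => ?_
    ring
  rw [e3]
  unfold FF
  rw [← hYt, ← hYs]
  linarith

lemma Phi_le (a : P → ℝ) (ha : ∀ p, 0 ≤ a p) (c : P → P → ℝ) (hc : ∀ p q, 0 ≤ c p q)
    {d : ℝ} (hd : 0 ≤ d) : Phi a c d ≤ Fintype.card P * d := by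
  unfold Phi
  have h1 : ∑ p, min (a p) d ≤ ∑ _p : P, d := Finset.sum_le_sum fun p _ => min_le_right _ _
  have h2 : 0 ≤ ∑ p, ∑ q, kap (min (a p) d) (min (a q) d) * c p q :=
    Finset.sum_nonneg fun p _ => Finset.sum_nonneg fun q _ =>
      mul_nonneg (kap_nonneg (le_min (ha p) hd) (le_min (ha q) hd)) (hc p q)
  rw [Finset.sum_const, Finset.card_univ, nsmul_eq_mul] at h1
  linarith

lemma FF_nonneg (a : P → ℝ) (v : P → m → ℂ) (e t : ℝ) : 0 ≤ FF a v e t :=
  re_trace_nonneg (CFC.sqrt_nonneg _).posSemidef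

/-- bound at positive `η, δ` -/
lemma path_bound_aux (a : P → ℝ) (ha : ∀ p, 0 ≤ a p) (v : P → m → ℂ)
    (hv : ∀ p, star (v p) ⬝ᵥ v p = 1) {T : ℝ} {e d : ℝ} (he : 0 < e) (hd : 0 < d)
    (hdT : d ≤ T) :
    Phi a (ov v) T - Fintype.card P * d - Fintype.card P * (e ^ 2 / (2 * d ^ 2)) * T
      ≤ FF a v e T := by
  set A : ℝ := Fintype.card P * (1 / (2 * d)) with hA
  set B : ℝ := Fintype.card P * (e ^ 2 / (2 * d ^ 2)) with hB
  have hA0 : 0 ≤ A := by positivity
  have hB0 : 0 ≤ B := by positivity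
  have h := mono_break (Finset.univ.image a) (fun t => FF a v e t - Phi a (ov v) t) A B d T hA0
    (by
      intro s t hs hst ht hb
      have h1 := path_step a ha v hv he (hd.trans_le hs) hst
      have h2 := scalar_step (e := e) a ha (ov v) (ov_nonneg v) (ov_symm v) hd hs hst
        (fun p => hb (a p) (Finset.mem_image_of_mem a (Finset.mem_univ p)))
      have h3 : (Fintype.card P : ℝ) * ((t - s) ^ 2 / (2 * d) + e ^ 2 * (t - s) / (2 * d ^ 2))
          = A * (t - s) ^ 2 + B * (t - s) := by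
        rw [hA, hB]; ring
      rw [h3] at h2
      linarith) d T le_rfl hdT le_rfl
  have h4 := FF_nonneg a v e d
  have h5 := Phi_le a ha (ov v) (ov_nonneg v) hd.le
  have h6 : B * (T - d) ≤ B * T := by
    apply mul_le_mul_of_nonneg_left _ hB0
    linarith
  linarith

/-- comparison of `√(X + η²)` with `√X + η` -/
lemma FF_le {a : P → ℝ} {v : P → m → ℂ} {e t : ℝ} (he : 0 < e) {S : Matrix m m ℂ}
    (hS : S.PosSemidef) (hSS : S * S = XX a v t) :
    FF a v e t ≤ S.trace.re + e * Fintype.card m := by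
  set Y := XX a v t + ((e ^ 2 : ℝ) : ℂ) • (1 : Matrix m m ℂ) with hY
  have hYp := YY_posDef a v he t
  rw [← hY] at hYp
  set T : Matrix m m ℂ := S + ((e : ℝ) : ℂ) • (1 : Matrix m m ℂ) with hT
  have hTp : T.PosDef := by
    refine PosDef.posSemidef_add hS (PosDef.one.smul ?_)
    exact_mod_cast he
  have hRR : CFC.sqrt Y * CFC.sqrt Y = Y := CFC.sqrt_mul_sqrt_self Y hYp.posSemidef.nonneg
  have hdiff : T * T - CFC.sqrt Y * CFC.sqrt Y = ((2 * e : ℝ) : ℂ) • S := by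
    rw [hRR, hY, ← hSS, hT]
    simp only [Matrix.add_mul, Matrix.mul_add, Matrix.smul_mul, Matrix.mul_smul, Matrix.one_mul,
      Matrix.mul_one]
    push_cast
    module
  have h1 := incr_a hTp (CFC.sqrt_nonneg Y).posSemidef.isHermitian
  rw [hdiff] at h1
  have h2 : 0 ≤ (T⁻¹ * (((2 * e : ℝ) : ℂ) • S)).trace.re := by
    apply re_trace_mul_nonneg hTp.inv.posSemidef
    apply hS.smul
    exact_mod_cast (by positivity : (0:ℝ) ≤ 2 * e)
  have h3 : T.trace.re = S.trace.re + e * Fintype.card m := by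
    rw [hT, trace_add, trace_smul, trace_one, Complex.add_re, smul_eq_mul, Complex.re_ofReal_mul]
    simp
  unfold FF
  rw [← hY]
  linarith

/-- **Key bound.** -/
theorem path_bound (a : P → ℝ) (ha : ∀ p, 0 ≤ a p) (v : P → m → ℂ)
    (hv : ∀ p, star (v p) ⬝ᵥ v p = 1) {S : Matrix m m ℂ} (hS : S.PosSemidef)
    (hSS : S * S = ∑ p, (((a p) ^ 2 : ℝ) : ℂ) • pr (v p)) :
    ∑ p, a p - 1 / 2 * ∑ p, ∑ q, kap (a p) (a q) * ov v p q ≤ S.trace.re := by
  obtain ⟨T, hT1, hTa⟩ : ∃ T : ℝ, 1 ≤ T ∧ ∀ p, a p ≤ T := by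
    refine ⟨1 + ∑ p, a p, by linarith [Finset.sum_nonneg fun p (_ : p ∈ Finset.univ) => ha p], ?_⟩
    intro p
    have := Finset.single_le_sum (fun p _ => ha p) (Finset.mem_univ p)
    linarith
  have hX : XX a v T = ∑ p, (((a p) ^ 2 : ℝ) : ℂ) • pr (v p) := by
    unfold XX
    refine Finset.sum_congr rfl fun p _ => ?_
    rw [min_eq_left (hTa p)]
  have hPhi : Phi a (ov v) T = ∑ p, a p - 1 / 2 * ∑ p, ∑ q, kap (a p) (a q) * ov v p q := by
    unfold Phi
    simp only [min_eq_left (hTa _)]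
  rw [← hPhi]
  refine le_of_forall_pos_le_add fun ε hε => ?_
  -- choose d, e = d^2
  set K : ℝ := Fintype.card P + Fintype.card P * T + Fintype.card m + 1 with hK
  have hKpos : 0 < K := by positivity
  set d : ℝ := min 1 (ε / K) with hd
  have hdpos : 0 < d := lt_min one_pos (div_pos hε hKpos)
  have hd1 : d ≤ 1 := min_le_left _ _
  have hdK : K * d ≤ ε := by
    have : d ≤ ε / K := min_le_right _ _
    rw [le_div_iff₀ hKpos] at this
    linarith
  have he : 0 < d ^ 2 := by positivity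
  have h1 := path_bound_aux a ha v hv he hdpos (hd1.trans hT1)
  have h2 := FF_le (a := a) (v := v) (t := T) he hS (hSS.trans hX.symm)
  have h3 : (Fintype.card P : ℝ) * ((d ^ 2) ^ 2 / (2 * d ^ 2)) * T ≤ Fintype.card P * T * d := by
    have e1 : (d ^ 2) ^ 2 / (2 * d ^ 2) = d ^ 2 / 2 := by field_simp
    rw [e1]
    have : d ^ 2 / 2 ≤ d := by nlinarith
    have hc : (0:ℝ) ≤ Fintype.card P := by positivity
    calc (Fintype.card P : ℝ) * (d ^ 2 / 2) * T ≤ Fintype.card P * d * T := by gcongr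
      _ = _ := by ring
  have h4 : d ^ 2 * (Fintype.card m : ℝ) ≤ Fintype.card m * d := by
    have : d ^ 2 ≤ d := by nlinarith
    have hc : (0:ℝ) ≤ Fintype.card m := by positivity
    nlinarith
  have h5 : K * d = Fintype.card P * d + Fintype.card P * T * d + Fintype.card m * d + d := by
    rw [hK]; ring
  linarith

end Pool.Agent.W99.TI
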