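import Pool.Agent.W99.TI.Path

/-!
# Spectral decompositions, the trace norm and the Nussbaum–Szkola type lower bound
-/

set_option autoImplicit false
set_option linter.unusedSectionVars false

namespace Pool.Agent.W99.TI

open Matrix Finset
open scoped MatrixOrder ComplexOrder

variable {m : Type*} [Fintype m] [DecidableEq m]

lemma exists_spec {A : Matrix m m ℂ} (hA : A.IsHermitian) :
    ∃ (U : Matrix m m ℂ) (l : m → ℝ), Uᴴ * U = 1 ∧ U * Uᴴ = 1 ∧
      A = U * diagonal (fun i => ((l i : ℝ) : ℂ)) * Uᴴ ∧ (A.PosSemidef → ∀ i, 0 ≤ l i) := by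
  refine ⟨(hA.eigenvectorUnitary : Matrix m m ℂ), hA.eigenvalues, ?_, ?_, ?_, ?_⟩
  · exact Unitary.coe_star_mul_self hA.eigenvectorUnitary
  · exact Unitary.coe_mul_star_self hA.eigenvectorUnitary
  · have h := hA.spectral_theorem
    rw [Unitary.conjStarAlgAut_apply] at h
    exact h
  · intro h i; exact h.eigenvalues_nonneg i

/-- column of a matrix -/
def cl (U : Matrix m m ℂ) (i : m) : m → ℂ := fun x => U x i

lemma diag_eq_sum (U : Matrix m m ℂ) (l : m → ℝ) :
    U * diagonal (fun i => ((l i : ℝ) : ℂ)) * Uᴴ = ∑ i, ((l i : ℝ) : ℂ) • pr (cl U i) := by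
  ext x y
  rw [Matrix.sum_apply, Matrix.mul_apply]
  refine Finset.sum_congr rfl fun i _ => ?_
  rw [Matrix.mul_diagonal, Matrix.smul_apply, pr, vecMulVec_apply, conjTranspose_apply,
    Pi.star_apply, smul_eq_mul]
  show U x i * ((l i : ℝ) : ℂ) * star (U y i) = ((l i : ℝ) : ℂ) * (U x i * star (U y i))
  ring

lemma cl_dot (U W : Matrix m m ℂ) (i l : m) : star (cl U i) ⬝ᵥ cl W l = (Uᴴ * W) i l := by
  rw [Matrix.mul_apply, dotProduct]
  rfl

lemma diag_mul_self {U : Matrix m m ℂ} (hU : Uᴴ * U = 1) (f g : m → ℂ) :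
    (U * diagonal f * Uᴴ) * (U * diagonal g * Uᴴ) = U * diagonal (fun i => f i * g i) * Uᴴ := by
  have : (U * diagonal f * Uᴴ) * (U * diagonal g * Uᴴ)
      = U * diagonal f * (Uᴴ * U) * diagonal g * Uᴴ := by
    simp only [Matrix.mul_assoc]
  rw [this, hU, Matrix.mul_one, Matrix.mul_assoc U, diagonal_mul_diagonal]

lemma diag_trace {U : Matrix m m ℂ} (hU : Uᴴ * U = 1) (f : m → ℂ) :
    (U * diagonal f * Uᴴ).trace = ∑ i, f i := by
  rw [Matrix.trace_mul_comm, ← Matrix.mul_assoc, hU, Matrix.one_mul, trace_diagonal]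

lemma diag_posSemidef (U : Matrix m m ℂ) {l : m → ℝ} (hl : ∀ i, 0 ≤ l i) :
    (U * diagonal (fun i => ((l i : ℝ) : ℂ)) * Uᴴ).PosSemidef := by
  refine PosSemidef.mul_mul_conjTranspose_same ?_ U
  rw [posSemidef_diagonal_iff]
  intro i
  exact_mod_cast hl i

lemma diag_herm (U : Matrix m m ℂ) (l : m → ℝ) :
    (U * diagonal (fun i => ((l i : ℝ) : ℂ)) * Uᴴ).IsHermitian := by
  unfold IsHermitian
  rw [conjTranspose_mul, conjTranspose_mul, conjTranspose_conjTranspose, diagonal_conjTranspose,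
    Matrix.mul_assoc]
  congr 3
  ext i
  simp

/-- The trace norm `‖X‖₁ = Tr √(X* X)`. -/
noncomputable def trN (X : Matrix m m ℂ) : ℝ := (CFC.sqrt (Xᴴ * X)).trace.re

/-- The trace norm of a Hermitian matrix is `Tr X (2 P - 1)` with a projection `P`. -/
lemma trN_eq {X : Matrix m m ℂ} (hX : X.IsHermitian) :
    ∃ Q : Matrix m m ℂ, Qᴴ = Q ∧ Q * Q = Q ∧
      trN X = (X * (Q + Q - 1)).trace.re := by
  obtain ⟨V, l, hV, hV', hXl, -⟩ := exists_spec hX
  set q : m → ℝ := fun i => if 0 ≤ l i then 1 else 0 with hq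
  refine ⟨V * diagonal (fun i => ((q i : ℝ) : ℂ)) * Vᴴ, diag_herm V q, ?_, ?_⟩
  · rw [diag_mul_self hV]
    congr 2
    ext i j
    simp only [diagonal_apply]
    split_ifs with h
    · rw [hq]; dsimp only; split_ifs <;> simp
    · rfl
  · have h1 : V * diagonal (fun i => ((q i : ℝ) : ℂ)) * Vᴴ + V * diagonal (fun i => ((q i : ℝ) : ℂ)) * Vᴴ - 1
        = V * diagonal (fun i => (((2 * q i - 1 : ℝ)) : ℂ)) * Vᴴ := by
      have : (1 : Matrix m m ℂ) = V * diagonal (fun _ => (1 : ℂ)) * Vᴴ := by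
        rw [diagonal_one, Matrix.mul_one, hV']
      rw [this, ← Matrix.add_mul, ← Matrix.mul_add, ← Matrix.sub_mul, ← Matrix.mul_sub,
        diagonal_add, diagonal_sub]
      congr 3
      ext i
      push_cast; ring
    have h2 : X * (V * diagonal (fun i => (((2 * q i - 1 : ℝ)) : ℂ)) * Vᴴ)
        = V * diagonal (fun i => ((|l i| : ℝ) : ℂ)) * Vᴴ := by
      rw [hXl, diag_mul_self hV]
      congr 3
      ext i
      rw [hq]
      dsimp only
      split_ifs with h
      · rw [abs_of_nonneg h]; push_cast; ring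
      · rw [abs_of_neg (not_le.mp h)]; push_cast; ring
    rw [h1, h2]
    unfold trN
    congr 2
    refine CFC.sqrt_unique ?_ ?_
    · rw [diag_mul_self hV, hX.eq, hXl, diag_mul_self hV]
      congr 3
      ext i
      rw [← Complex.ofReal_mul, ← Complex.ofReal_mul, abs_mul_abs_self]
    · exact (diag_posSemidef V fun i => abs_nonneg (l i)).nonneg

lemma two_term {a b : ℝ} (ha : 0 ≤ a) (hb : 0 ≤ b) (x y : ℂ) :
    a * b / (a + b) * Complex.normSq (x + y) ≤ a * Complex.normSq x + b * Complex.normSq y := by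
  have h0 : 0 ≤ a * Complex.normSq x + b * Complex.normSq y :=
    add_nonneg (mul_nonneg ha (Complex.normSq_nonneg _)) (mul_nonneg hb (Complex.normSq_nonneg _))
  rcases (add_nonneg ha hb).eq_or_lt with h | h
  · rw [← h]; simpa using h0
  · rw [div_mul_eq_mul_div, div_le_iff₀ h]
    simp only [Complex.normSq_apply, Complex.add_re, Complex.add_im]
    nlinarith [sq_nonneg (a * x.re - b * y.re), sq_nonneg (a * x.im - b * y.im)]

/-- The lower bound for the optimal error of a projective test. -/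
lemma ns_bound {U W Q : Matrix m m ℂ} {a b : m → ℝ} (hU' : U * Uᴴ = 1)
    (hW' : W * Wᴴ = 1) (ha : ∀ i, 0 ≤ a i) (hb : ∀ i, 0 ≤ b i) (hQ : Qᴴ = Q) (hQQ : Q * Q = Q) :
    ∑ i, ∑ l, a i * b l / (a i + b l) * Complex.normSq ((Uᴴ * W) i l) ≤
      ((U * diagonal (fun i => ((a i : ℝ) : ℂ)) * Uᴴ) * (1 - Q)).trace.re
        + ((W * diagonal (fun i => ((b i : ℝ) : ℂ)) * Wᴴ) * Q).trace.re := by
  have hR : (1 - Q)ᴴ = 1 - Q := by rw [conjTranspose_sub, conjTranspose_one, hQ]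
  have hRR : (1 - Q) * (1 - Q) = 1 - Q := by
    rw [Matrix.sub_mul, Matrix.mul_sub, Matrix.mul_sub, Matrix.mul_one, Matrix.one_mul,
      Matrix.mul_one, hQQ]
    abel
  have e1 : ((U * diagonal (fun i => ((a i : ℝ) : ℂ)) * Uᴴ) * (1 - Q)).trace.re
      = ∑ i, ∑ l, a i * Complex.normSq ((Uᴴ * (1 - Q) * W) i l) := by
    have h1 : ((U * diagonal (fun i => ((a i : ℝ) : ℂ)) * Uᴴ) * (1 - Q)).trace
        = (diagonal (fun i => ((a i : ℝ) : ℂ)) *
          ((Uᴴ * (1 - Q) * W) * (Uᴴ * (1 - Q) * W)ᴴ)).trace := by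
      have h2 : (Uᴴ * (1 - Q) * W) * (Uᴴ * (1 - Q) * W)ᴴ = Uᴴ * (1 - Q) * U := by
        rw [conjTranspose_mul, conjTranspose_mul, conjTranspose_conjTranspose, hR]
        have : Uᴴ * (1 - Q) * W * (Wᴴ * ((1 - Q) * U)) = Uᴴ * (1 - Q) * (W * Wᴴ) * ((1 - Q) * U) := by
          simp only [Matrix.mul_assoc]
        rw [this, hW', Matrix.mul_one]
        have : Uᴴ * (1 - Q) * ((1 - Q) * U) = Uᴴ * ((1 - Q) * (1 - Q)) * U := by
          simp only [Matrix.mul_assoc]
        rw [this, hRR]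
      rw [h2]
      have : (U * diagonal (fun i => ((a i : ℝ) : ℂ)) * Uᴴ) * (1 - Q)
          = U * (diagonal (fun i => ((a i : ℝ) : ℂ)) * Uᴴ * (1 - Q)) := by
        simp only [Matrix.mul_assoc]
      rw [this, Matrix.trace_mul_comm]
      simp only [Matrix.mul_assoc]
    rw [h1, Matrix.trace, Complex.re_sum]
    refine Finset.sum_congr rfl fun i _ => ?_
    rw [Matrix.diag_apply, Matrix.diagonal_mul, Matrix.mul_apply, Complex.re_ofReal_mul,
      Complex.re_sum, Finset.mul_sum]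
    refine Finset.sum_congr rfl fun l _ => ?_
    rw [conjTranspose_apply, Complex.star_def, Complex.mul_conj, Complex.ofReal_re]
  have e2 : ((W * diagonal (fun i => ((b i : ℝ) : ℂ)) * Wᴴ) * Q).trace.re
      = ∑ i, ∑ l, b l * Complex.normSq ((Uᴴ * Q * W) i l) := by
    have h1 : ((W * diagonal (fun i => ((b i : ℝ) : ℂ)) * Wᴴ) * Q).trace
        = (diagonal (fun i => ((b i : ℝ) : ℂ)) *
          ((Uᴴ * Q * W)ᴴ * (Uᴴ * Q * W))).trace := by
      have h2 : (Uᴴ * Q * W)ᴴ * (Uᴴ * Q * W) = Wᴴ * Q * W := by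
        rw [conjTranspose_mul, conjTranspose_mul, conjTranspose_conjTranspose, hQ]
        have : Wᴴ * (Q * U) * (Uᴴ * Q * W) = Wᴴ * Q * (U * Uᴴ) * (Q * W) := by
          simp only [Matrix.mul_assoc]
        rw [this, hU', Matrix.mul_one]
        have : Wᴴ * Q * (Q * W) = Wᴴ * (Q * Q) * W := by
          simp only [Matrix.mul_assoc]
        rw [this, hQQ]
      rw [h2]
      have : (W * diagonal (fun i => ((b i : ℝ) : ℂ)) * Wᴴ) * Q
          = W * (diagonal (fun i => ((b i : ℝ) : ℂ)) * Wᴴ * Q) := by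
        simp only [Matrix.mul_assoc]
      rw [this, Matrix.trace_mul_comm]
      simp only [Matrix.mul_assoc]
    rw [h1, Matrix.trace, Complex.re_sum, Finset.sum_comm]
    refine Finset.sum_congr rfl fun i _ => ?_
    rw [Matrix.diag_apply, Matrix.diagonal_mul, Matrix.mul_apply, Complex.re_ofReal_mul,
      Complex.re_sum, Finset.mul_sum]
    refine Finset.sum_congr rfl fun l _ => ?_
    rw [conjTranspose_apply, Complex.star_def, mul_comm ((starRingEnd ℂ) _), Complex.mul_conj,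
      Complex.ofReal_re]
  rw [e1, e2, ← Finset.sum_add_distrib]
  refine Finset.sum_le_sum fun i _ => ?_
  rw [← Finset.sum_add_distrib]
  refine Finset.sum_le_sum fun l _ => ?_
  have h3 : (Uᴴ * W) i l = (Uᴴ * (1 - Q) * W) i l + (Uᴴ * Q * W) i l := by
    rw [← Matrix.add_apply, ← Matrix.add_mul, ← Matrix.mul_add, sub_add_cancel, Matrix.mul_one]
  rw [h3]
  exact two_term (ha i) (hb l) _ _

/-- `∑ 2 a_i b_l / (a_i + b_l) |⟨v_i, u_l⟩|² ≤ Tr (A + B) - ‖A - B‖₁`. -/
lemma pair_bound {A B U W : Matrix m m ℂ} {a b : m → ℝ} (hU' : U * Uᴴ = 1)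
    (hW' : W * Wᴴ = 1) (ha : ∀ i, 0 ≤ a i) (hb : ∀ i, 0 ≤ b i)
    (hA : A = U * diagonal (fun i => ((a i : ℝ) : ℂ)) * Uᴴ)
    (hB : B = W * diagonal (fun i => ((b i : ℝ) : ℂ)) * Wᴴ) :
    ∑ i, ∑ l, 2 * (a i * b l / (a i + b l)) * Complex.normSq ((Uᴴ * W) i l) ≤
      (A + B).trace.re - trN (A - B) := by
  have hAh : A.IsHermitian := hA ▸ diag_herm U a
  have hBh : B.IsHermitian := hB ▸ diag_herm W b
  obtain ⟨Q, hQ, hQQ, hT⟩ := trN_eq (hAh.sub hBh)
  have h := ns_bound hU' hW' ha hb hQ hQQ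
  rw [← hA, ← hB] at h
  rw [hT]
  have e1 : (A + B) - (A - B) * (Q + Q - 1) = A * (1 - Q) + A * (1 - Q) + (B * Q + B * Q) := by
    simp only [Matrix.sub_mul, Matrix.mul_sub, Matrix.mul_add, Matrix.mul_one]
    abel
  have e2 : (A + B).trace.re - ((A - B) * (Q + Q - 1)).trace.re
      = 2 * ((A * (1 - Q)).trace.re + (B * Q).trace.re) := by
    have h3 := congrArg (fun M : Matrix m m ℂ => M.trace.re) e1
    simp only [Matrix.trace_add, Matrix.trace_sub, Complex.add_re, Complex.sub_re] at h3 ⊢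
    linarith
  rw [e2]
  have e3 : ∑ i, ∑ l, 2 * (a i * b l / (a i + b l)) * Complex.normSq ((Uᴴ * W) i l)
      = 2 * ∑ i, ∑ l, a i * b l / (a i + b l) * Complex.normSq ((Uᴴ * W) i l) := by
    rw [Finset.mul_sum]
    refine Finset.sum_congr rfl fun i _ => ?_
    rw [Finset.mul_sum]
    refine Finset.sum_congr rfl fun l _ => ?_
    ring
  rw [e3]
  linarith

end Pool.Agent.W99.TI
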